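import Pool.Agent.helper56.SG.SpecG

/-!
# Project sg: (MP_2b8aea_gt), module FUB: Fubini
-/

set_option autoImplicit false

open MeasureTheory Set Metric Filter Topology
open scoped ENNReal NNReal ComplexConjugate
open Pool.Agent.SG

noncomputable section

namespace Pool.Agent.SGG

theorem FUB (hHYC : HYC_stmt) : FUB_stmt := by
  intro G σ hσ hG h0
  obtain ⟨hcompl, hsf, hfin, -, -, -, -⟩ := hHYC
  have : SFinite hyp := hsf
  obtain ⟨D, hD⟩ : ∃ D : Set ℂ, D = ball (0 : ℂ) 1 := ⟨_, rfl⟩
  rw [← hD] at hcompl hG h0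
  have hDm : MeasurableSet D := by rw [hD]; exact measurableSet_ball
  have hae : ∀ᵐ z ∂hyp, z ∈ D := by
    rw [ae_iff]
    exact hcompl
  -- almost every pair is in `D ×ˢ D`
  have hae2 : ∀ᵐ q ∂(hyp.prod hyp), q ∈ D ×ˢ D := by
    rw [ae_iff]
    have h1 : {q : ℂ × ℂ | ¬ q ∈ D ×ˢ D} ⊆ (Dᶜ ×ˢ univ) ∪ (univ ×ˢ Dᶜ) := by
      intro q hq
      rw [mem_ofPred_eq, mem_prod, not_and_or] at hq
      rcases hq with hq | hq
      · left
        exact ⟨hq, mem_univ _⟩
      · right
        exact ⟨mem_univ _, hq⟩
    refine measure_mono_null h1 ?_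
    rw [measure_union_null_iff]
    constructor
    · rw [Measure.prod_prod, hcompl, zero_mul]
    · rw [Measure.prod_prod, hcompl, mul_zero]
  have haes : AEStronglyMeasurable (Function.uncurry G) (hyp.prod hyp) := by
    have h1 : AEStronglyMeasurable (Function.uncurry G) ((hyp.prod hyp).restrict (D ×ˢ D)) :=
      ContinuousOn.aestronglyMeasurable hG (hDm.prod hDm)
    rw [Measure.restrict_eq_self_of_ae_mem hae2] at h1
    exact h1
  have hint : Integrable (Function.uncurry G) (hyp.prod hyp) := by
    obtain ⟨K, hK⟩ : ∃ K : Set ℂ, K = closedBall (0 : ℂ) σ := ⟨_, rfl⟩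
    have hKD : K ⊆ D := by rw [hK, hD]; exact closedBall_subset_ball hσ
    have hKc : IsCompact K := by rw [hK]; exact isCompact_closedBall _ _
    have hKm : MeasurableSet K := by rw [hK]; exact isClosed_closedBall.measurableSet
    obtain ⟨B, hB⟩ := (hKc.prod hKc).exists_bound_of_continuousOn (hG.mono (prod_mono hKD hKD))
    have h1 : IntegrableOn (Function.uncurry G) (K ×ˢ K) (hyp.prod hyp) := by
      refine Measure.integrableOn_of_bounded (M := B) ?_ haes ?_
      · rw [Measure.prod_prod]
        refine ENNReal.mul_ne_top ?_ ?_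
        · rw [hK]; exact (hfin σ hσ).ne
        · rw [hK]; exact (hfin σ hσ).ne
      · rw [ae_restrict_iff' (hKm.prod hKm)]
        exact Filter.Eventually.of_forall fun q hq => hB q hq
    have h2 : Integrable ((K ×ˢ K).indicator (Function.uncurry G)) (hyp.prod hyp) := by
      rw [integrable_indicator_iff (hKm.prod hKm)]
      exact h1
    refine h2.congr ?_
    filter_upwards [hae2] with q hq
    by_cases h3 : q ∈ K ×ˢ K
    · rw [indicator_of_mem h3]
    · rw [indicator_of_notMem h3]
      rw [mem_prod, not_and_or, hK, mem_closedBall_zero_iff, mem_closedBall_zero_iff, not_le,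
        not_le] at h3
      have := h0 q.1 hq.1 q.2 hq.2 h3
      rw [Function.uncurry, this]
  exact integral_integral_swap hint

end Pool.Agent.SGG
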