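import Pool.Agent.helper56.SG.SpecG

/-!
# Project sg: (MP_2b8aea_gt), module HYC: the hyperbolic area, integrability and positivity
-/

set_option autoImplicit false

open MeasureTheory Set Metric Filter Topology
open scoped ENNReal NNReal ComplexConjugate
open Pool.Agent.SG

noncomputable section

namespace Pool.Agent.SGG

/-- The density of the hyperbolic area. -/
def HYC_den (z : ℂ) : ℝ≥0∞ := ENNReal.ofReal (((1 - ‖z‖ ^ 2) ^ 2)⁻¹)

theorem HYC_den_meas : Measurable HYC_den := by
  unfold HYC_den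
  fun_prop

theorem HYC_eq : hyp = (volume.restrict (ball (0 : ℂ) 1)).withDensity HYC_den := rfl

theorem HYC_compl : hyp (ball (0 : ℂ) 1)ᶜ = 0 := by
  rw [HYC_eq]
  apply withDensity_absolutelyContinuous
  rw [Measure.restrict_apply measurableSet_ball.compl, compl_inter_self]
  exact measure_empty

theorem HYC_ac : hyp ≪ volume.restrict (ball (0 : ℂ) 1) := by
  rw [HYC_eq]
  exact withDensity_absolutelyContinuous _ _

theorem HYC_closedBall (ρ : ℝ) (hρ : ρ < 1) : hyp (closedBall (0 : ℂ) ρ) < ⊤ := by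
  rcases lt_or_ge ρ 0 with h0 | h0
  · rw [closedBall_eq_empty.mpr h0]
    simp
  · rw [HYC_eq, withDensity_apply _ isClosed_closedBall.measurableSet]
    have h1 : ∀ z ∈ closedBall (0 : ℂ) ρ, HYC_den z ≤ ENNReal.ofReal (((1 - ρ ^ 2) ^ 2)⁻¹) := by
      intro z hz
      rw [mem_closedBall_zero_iff] at hz
      unfold HYC_den
      apply ENNReal.ofReal_le_ofReal
      have h2 : 0 < 1 - ρ ^ 2 := by nlinarith
      have h3 : 1 - ρ ^ 2 ≤ 1 - ‖z‖ ^ 2 := by
        have := pow_le_pow_left₀ (norm_nonneg z) hz 2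
        linarith
      have h4 : (1 - ρ ^ 2) ^ 2 ≤ (1 - ‖z‖ ^ 2) ^ 2 := pow_le_pow_left₀ h2.le h3 2
      exact inv_anti₀ (by positivity) h4
    calc ∫⁻ z in closedBall (0 : ℂ) ρ, HYC_den z ∂(volume.restrict (ball (0 : ℂ) 1))
        ≤ ∫⁻ z in closedBall (0 : ℂ) ρ, ENNReal.ofReal (((1 - ρ ^ 2) ^ 2)⁻¹)
            ∂(volume.restrict (ball (0 : ℂ) 1)) :=
          setLIntegral_mono measurable_const h1
      _ = ENNReal.ofReal (((1 - ρ ^ 2) ^ 2)⁻¹) *
            (volume.restrict (ball (0 : ℂ) 1)) (closedBall (0 : ℂ) ρ) := by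
          rw [setLIntegral_const]
      _ < ⊤ := by
          refine ENNReal.mul_lt_top ENNReal.ofReal_lt_top ?_
          refine lt_of_le_of_lt (Measure.restrict_apply_le _ _) ?_
          exact (isCompact_closedBall (0 : ℂ) ρ).measure_lt_top

/-- The hyperbolic area is at least the Lebesgue measure. -/
theorem HYC_ge (s : Set ℂ) (hs : MeasurableSet s) (hsb : s ⊆ ball (0 : ℂ) 1) : volume s ≤ hyp s := by
  rw [HYC_eq, withDensity_apply _ hs, Measure.restrict_restrict hs, inter_eq_left.mpr hsb]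
  calc volume s = ∫⁻ _ in s, 1 := by rw [setLIntegral_one]
    _ ≤ ∫⁻ z in s, HYC_den z := by
        refine setLIntegral_mono HYC_den_meas ?_
        intro z hz
        have h1 := hsb hz
        rw [mem_ball_zero_iff] at h1
        unfold HYC_den
        rw [← ENNReal.ofReal_one]
        apply ENNReal.ofReal_le_ofReal
        have h2 : 0 < 1 - ‖z‖ ^ 2 := by
          have := norm_nonneg z
          nlinarith
        rw [one_le_inv₀ (by positivity)]
        have h3 : 1 - ‖z‖ ^ 2 ≤ 1 := by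
          have := sq_nonneg ‖z‖
          linarith
        exact pow_le_one₀ h2.le h3

theorem HYC_sf : SFinite hyp := by
  rw [HYC_eq]
  infer_instance

theorem HYC_aes (g : ℂ → ℝ) (hg : CB g) : AEStronglyMeasurable g hyp := by
  have h1 : AEStronglyMeasurable g (volume.restrict (ball (0 : ℂ) 1)) :=
    ContinuousOn.aestronglyMeasurable hg measurableSet_ball
  exact h1.mono_ac HYC_ac

theorem HYC_ae : ∀ᵐ z ∂hyp, z ∈ ball (0 : ℂ) 1 := by
  rw [ae_iff]
  exact HYC_compl

theorem HYC_int (g : ℂ → ℝ) (hg : CB g) (ρ : ℝ) (hρ : ρ < 1)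
    (h0 : ∀ z ∈ ball (0 : ℂ) 1, ρ < ‖z‖ → g z = 0) : Integrable g hyp := by
  have hsub : closedBall (0 : ℂ) ρ ⊆ ball (0 : ℂ) 1 := closedBall_subset_ball hρ
  obtain ⟨B, hB⟩ := (isCompact_closedBall (0 : ℂ) ρ).exists_bound_of_continuousOn (hg.mono hsub)
  have h1 : IntegrableOn g (closedBall (0 : ℂ) ρ) hyp := by
    refine Measure.integrableOn_of_bounded (M := B) (HYC_closedBall ρ hρ).ne (HYC_aes g hg) ?_
    rw [ae_restrict_iff' isClosed_closedBall.measurableSet]
    exact Filter.Eventually.of_forall fun z hz => hB z hz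
  have h2 : Integrable ((closedBall (0 : ℂ) ρ).indicator g) hyp := by
    rw [integrable_indicator_iff isClosed_closedBall.measurableSet]
    exact h1
  refine h2.congr ?_
  filter_upwards [HYC_ae] with z hz
  by_cases h3 : z ∈ closedBall (0 : ℂ) ρ
  · rw [indicator_of_mem h3]
  · rw [indicator_of_notMem h3]
    rw [mem_closedBall_zero_iff, not_le] at h3
    rw [h0 z hz h3]

theorem HYC : HYC_stmt := by
  refine ⟨HYC_compl, HYC_sf, HYC_closedBall, ?_, HYC_aes, HYC_int, ?_⟩
  · intro ρ hρ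
    have h1 : 0 < min ρ 1 := lt_min hρ one_pos
    have h2 : 0 < volume (ball (0 : ℂ) (min ρ 1)) := measure_ball_pos _ _ h1
    refine lt_of_lt_of_le h2 ?_
    refine le_trans (HYC_ge _ measurableSet_ball (ball_subset_ball (min_le_right _ _))) ?_
    exact measure_mono (ball_subset_ball (min_le_left _ _))
  · intro g hg hpos hint hzero z hz
    by_contra hne
    have hgz : 0 < g z := lt_of_le_of_ne (hpos z hz) (Ne.symm hne)
    have h1 : g =ᵐ[hyp] 0 := by
      refine (integral_eq_zero_iff_of_nonneg_ae ?_ hint).mp hzero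
      filter_upwards [HYC_ae] with w hw
      exact hpos w hw
    -- a small ball where `g > 0`
    have h2 : ∀ᶠ w in 𝓝 z, 0 < g w := by
      have h3 : ContinuousAt g z := hg.continuousAt (isOpen_ball.mem_nhds hz)
      exact h3.eventually (Ioi_mem_nhds hgz)
    have h4 : ∀ᶠ w in 𝓝 z, w ∈ ball (0 : ℂ) 1 := isOpen_ball.mem_nhds hz
    obtain ⟨ε, hε, hball⟩ := Metric.eventually_nhds_iff_ball.mp (h2.and h4)
    have h5 : volume (ball z ε) ≤ hyp (ball z ε) :=
      HYC_ge _ measurableSet_ball fun w hw => (hball w hw).2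
    have h6 : 0 < hyp (ball z ε) := lt_of_lt_of_le (measure_ball_pos _ _ hε) h5
    have h7 : hyp (ball z ε) = 0 := by
      have h8 : hyp {w | ¬ g w = (0 : ℂ → ℝ) w} = 0 := h1
      refine measure_mono_null ?_ h8
      intro w hw
      have := (hball w hw).1
      simp only [mem_ofPred_eq, Pi.zero_apply]
      exact this.ne'
    exact h6.ne' h7

end Pool.Agent.SGG
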