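import Pool.Agent.helper56.SG.SpecG

/-!
# Project sg: (MP_2b8aea_gt), module RAD: radial weights and holomorphic functions
-/

set_option autoImplicit false

open MeasureTheory Set Metric Filter Topology
open scoped ENNReal NNReal ComplexConjugate
open Pool.Agent.SG

noncomputable section

namespace Pool.Agent.SGG

/-- Mean value property on the circle of radius `‖z‖`. -/
theorem RAD_mean (V : Set ℂ) (f : ℂ → ℂ) (ρ : ℝ) (hV : IsOpen V) (hf : DifferentiableOn ℂ f V)
    (hVρ : ∀ z : ℂ, ‖z‖ ≤ ρ → z ∈ V) (z : ℂ) (hz : ‖z‖ ≤ ρ) :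
    ∫ θ in (0 : ℝ)..2 * Real.pi, (f (Complex.exp (θ * Complex.I) * z)).re =
      2 * Real.pi * (f 0).re := by
  obtain ⟨g, hg⟩ : ∃ g : ℂ → ℂ, g = fun w => f (w * z) := ⟨_, rfl⟩
  have hmem : ∀ w : ℂ, ‖w‖ ≤ 1 → w * z ∈ V := by
    intro w hw
    apply hVρ
    rw [norm_mul]
    exact le_trans (mul_le_of_le_one_left (norm_nonneg _) hw) hz
  have hgd : DifferentiableOn ℂ g (closedBall (0 : ℂ) 1) := by
    rw [hg]
    intro w hw
    rw [mem_closedBall_zero_iff] at hw
    have h1 : DifferentiableAt ℂ f (w * z) := hf.differentiableAt (hV.mem_nhds (hmem w hw))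
    have h2 : DifferentiableAt ℂ (fun w : ℂ => w * z) w := by fun_prop
    exact (h1.comp w h2).differentiableWithinAt
  have hd : DiffContOnCl ℂ g (ball (0 : ℂ) |(1 : ℝ)|) := by
    rw [abs_one]
    apply DifferentiableOn.diffContOnCl
    rw [closure_ball (0 : ℂ) one_ne_zero]
    exact hgd
  have h3 := hd.circleAverage
  unfold Real.circleAverage at h3
  have h4 : ∀ θ : ℝ, g (circleMap 0 1 θ) = f (Complex.exp (θ * Complex.I) * z) := by
    intro θ
    rw [hg]
    simp only [circleMap, Complex.ofReal_one, one_mul, zero_add]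
  simp only [h4] at h3
  have h5 : g 0 = f 0 := by rw [hg]; simp
  rw [h5] at h3
  have hcont : Continuous fun θ : ℝ => f (Complex.exp (θ * Complex.I) * z) := by
    rw [continuous_iff_continuousAt]
    intro θ
    have h6 : ContinuousAt f (Complex.exp (θ * Complex.I) * z) := by
      apply hf.continuousOn.continuousAt
      apply hV.mem_nhds
      apply hmem
      rw [Complex.norm_exp_ofReal_mul_I]
    exact ContinuousAt.comp (f := fun θ : ℝ => Complex.exp (θ * Complex.I) * z) h6 (by fun_prop)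
  have h7 : ∫ θ in (0 : ℝ)..2 * Real.pi, f (Complex.exp (θ * Complex.I) * z) =
      ((2 * Real.pi : ℝ) : ℂ) * f 0 := by
    rw [← h3, Complex.real_smul, ← mul_assoc]
    have h8 : ((2 * Real.pi : ℝ) : ℂ) * (((2 * Real.pi)⁻¹ : ℝ) : ℂ) = 1 := by
      rw [← Complex.ofReal_mul, mul_inv_cancel₀ Real.two_pi_pos.ne', Complex.ofReal_one]
    rw [h8, one_mul]
  have h9 := Complex.reCLM.intervalIntegral_comp_comm (μ := volume) (a := 0) (b := 2 * Real.pi)
    (f := fun θ : ℝ => f (Complex.exp (θ * Complex.I) * z)) (hcont.intervalIntegrable _ _)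
  simp only [Complex.reCLM_apply] at h9
  rw [h9, h7, Complex.re_ofReal_mul]

theorem RAD (hHYC : HYC_stmt) (hCHV : CHV_stmt) : RAD_stmt := by
  intro k ρ hk hρ hk0 hrad V f hV hf hVρ
  obtain ⟨hcompl, hsf, hfin, -, haes, -, -⟩ := hHYC
  have : SFinite hyp := hsf
  obtain ⟨D, hD⟩ : ∃ D : Set ℂ, D = ball (0 : ℂ) 1 := ⟨_, rfl⟩
  have hDm : MeasurableSet D := by rw [hD]; exact measurableSet_ball
  have hae : ∀ᵐ z ∂hyp, z ∈ D := by
    rw [ae_iff, hD]
    exact hcompl
  obtain ⟨G, hG⟩ : ∃ G : ℂ → ℝ, G = fun z => k z * (f z).re := ⟨_, rfl⟩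
  have hG0 : ∀ z ∈ ball (0 : ℂ) 1, ρ < ‖z‖ → G z = 0 := by
    intro z hz h
    rw [hG]
    simp only
    rw [hk0 z hz h, zero_mul]
  -- `G` is continuous on the disc
  have hGc : CB G := by
    intro z hz
    rcases le_or_gt ‖z‖ ρ with h | h
    · have h1 : ContinuousAt (fun z => (f z).re) z := by
        have : ContinuousAt f z := hf.continuousOn.continuousAt (hV.mem_nhds (hVρ z h))
        exact Complex.continuous_re.continuousAt.comp this
      rw [hG]
      exact (hk z hz).mul h1.continuousWithinAt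
    · have h1 : G =ᶠ[𝓝 z] fun _ => 0 := by
        have h2 : ∀ᶠ w in 𝓝 z, w ∈ ball (0 : ℂ) 1 := isOpen_ball.mem_nhds hz
        have h3 : ∀ᶠ w in 𝓝 z, ρ < ‖w‖ := continuous_norm.continuousAt.eventually (Ioi_mem_nhds h)
        filter_upwards [h2, h3] with w hw1 hw2
        exact hG0 w hw1 hw2
      exact (continuousAt_const.congr h1.symm).continuousWithinAt
  -- rotations
  have hnorm : ∀ (θ : ℝ) (z : ℂ), ‖Complex.exp (θ * Complex.I) * z‖ = ‖z‖ := by
    intro θ z
    rw [norm_mul, Complex.norm_exp_ofReal_mul_I, one_mul]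
  have hrot : ∀ θ : ℝ, ∫ z, G (Complex.exp (θ * Complex.I) * z) ∂hyp = ∫ z, G z ∂hyp := by
    intro θ
    have hiso : IsoM (Complex.exp (((θ / 2 : ℝ) : ℂ) * Complex.I)) 0 := by
      unfold IsoM
      rw [Complex.norm_exp_ofReal_mul_I, norm_zero]
      norm_num
    have h1 := hCHV _ _ hiso G hGc
    have h2 : ∀ z : ℂ, mob (Complex.exp (((θ / 2 : ℝ) : ℂ) * Complex.I)) 0 z =
        Complex.exp (θ * Complex.I) * z := by
      intro z
      unfold mob
      have h3 : conj (Complex.exp (((θ / 2 : ℝ) : ℂ) * Complex.I)) =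
          (Complex.exp (((θ / 2 : ℝ) : ℂ) * Complex.I))⁻¹ := by
        rw [← Complex.exp_conj, ← Complex.exp_neg, map_mul, Complex.conj_ofReal, Complex.conj_I]
        congr 1
        ring
      have h4 : Complex.exp (θ * Complex.I) = Complex.exp (((θ / 2 : ℝ) : ℂ) * Complex.I) *
          Complex.exp (((θ / 2 : ℝ) : ℂ) * Complex.I) := by
        rw [← Complex.exp_add]
        congr 1
        push_cast
        ring
      have h5 := Complex.exp_ne_zero (((θ / 2 : ℝ) : ℂ) * Complex.I)
      rw [map_zero, zero_mul, zero_add, add_zero, h3, h4]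
      field_simp
    simp only [h2] at h1
    exact h1
  -- Fubini
  obtain ⟨μ₁, hμ₁⟩ : ∃ μ₁ : Measure ℝ, μ₁ = volume.restrict (Ioc 0 (2 * Real.pi)) := ⟨_, rfl⟩
  have hμfin : μ₁ univ < ⊤ := by
    rw [hμ₁, Measure.restrict_apply_univ]
    exact measure_Ioc_lt_top
  have hsf1 : SFinite μ₁ := by rw [hμ₁]; infer_instance
  have hae2 : ∀ᵐ q ∂(μ₁.prod hyp), q ∈ (univ : Set ℝ) ×ˢ D := by
    rw [ae_iff]
    have h1 : {q : ℝ × ℂ | ¬ q ∈ (univ : Set ℝ) ×ˢ D} ⊆ univ ×ˢ Dᶜ := by
      intro q hq
      rw [mem_ofPred_eq, mem_prod, not_and_or] at hq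
      rcases hq with hq | hq
      · exact absurd (mem_univ _) hq
      · exact ⟨mem_univ _, hq⟩
    refine measure_mono_null h1 ?_
    rw [Measure.prod_prod, hD, hcompl, mul_zero]
  have hcont : ContinuousOn (Function.uncurry fun (θ : ℝ) (z : ℂ) => G (Complex.exp (θ * Complex.I) * z))
      ((univ : Set ℝ) ×ˢ D) := by
    have h1 : ContinuousOn (fun q : ℝ × ℂ => Complex.exp (q.1 * Complex.I) * q.2)
        ((univ : Set ℝ) ×ˢ D) := by fun_prop
    refine ContinuousOn.comp (g := G) hGc h1 ?_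
    intro q hq
    rw [mem_ball_zero_iff, hnorm]
    have := hq.2
    rw [hD, mem_ball_zero_iff] at this
    exact this
  have haes2 : AEStronglyMeasurable
      (Function.uncurry fun (θ : ℝ) (z : ℂ) => G (Complex.exp (θ * Complex.I) * z))
      (μ₁.prod hyp) := by
    have h1 := ContinuousOn.aestronglyMeasurable (μ := μ₁.prod hyp) hcont
      (MeasurableSet.univ.prod hDm)
    rw [Measure.restrict_eq_self_of_ae_mem hae2] at h1
    exact h1
  have hint : Integrable (Function.uncurry fun (θ : ℝ) (z : ℂ) => G (Complex.exp (θ * Complex.I) * z))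
      (μ₁.prod hyp) := by
    obtain ⟨K, hK⟩ : ∃ K : Set ℂ, K = closedBall (0 : ℂ) ρ := ⟨_, rfl⟩
    have hKD : K ⊆ ball (0 : ℂ) 1 := by rw [hK]; exact closedBall_subset_ball hρ
    have hKc : IsCompact K := by rw [hK]; exact isCompact_closedBall _ _
    have hKm : MeasurableSet K := by rw [hK]; exact isClosed_closedBall.measurableSet
    obtain ⟨B, hB⟩ := hKc.exists_bound_of_continuousOn (hGc.mono hKD)
    have h1 : IntegrableOn (Function.uncurry fun (θ : ℝ) (z : ℂ) => G (Complex.exp (θ * Complex.I) * z))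
        ((univ : Set ℝ) ×ˢ K) (μ₁.prod hyp) := by
      refine Measure.integrableOn_of_bounded (M := B) ?_ haes2 ?_
      · rw [Measure.prod_prod]
        refine ENNReal.mul_ne_top hμfin.ne ?_
        rw [hK]; exact (hfin ρ hρ).ne
      · rw [ae_restrict_iff' (MeasurableSet.univ.prod hKm)]
        refine Filter.Eventually.of_forall fun q hq => ?_
        apply hB
        have := hq.2
        rw [hK, mem_closedBall_zero_iff] at this ⊢
        rw [hnorm]
        exact this
    have h2 : Integrable (((univ : Set ℝ) ×ˢ K).indicator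
        (Function.uncurry fun (θ : ℝ) (z : ℂ) => G (Complex.exp (θ * Complex.I) * z))) (μ₁.prod hyp) := by
      rw [integrable_indicator_iff (MeasurableSet.univ.prod hKm)]
      exact h1
    refine h2.congr ?_
    filter_upwards [hae2] with q hq
    by_cases h3 : q ∈ (univ : Set ℝ) ×ˢ K
    · rw [indicator_of_mem h3]
    · rw [indicator_of_notMem h3]
      have h4 : ρ < ‖q.2‖ := by
        by_contra h5
        apply h3
        rw [hK]
        exact ⟨mem_univ _, mem_closedBall_zero_iff.mpr (not_lt.mp h5)⟩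
      have h6 : q.2 ∈ ball (0 : ℂ) 1 := by rw [← hD]; exact hq.2
      have h7 := hG0 (Complex.exp (q.1 * Complex.I) * q.2) (by
        rw [mem_ball_zero_iff, hnorm]
        exact mem_ball_zero_iff.mp h6) (by rw [hnorm]; exact h4)
      rw [Function.uncurry, h7]
  have hswap := integral_integral_swap hint
  have hL : ∫ θ, (∫ z, G (Complex.exp (θ * Complex.I) * z) ∂hyp) ∂μ₁ =
      2 * Real.pi * ∫ z, G z ∂hyp := by
    simp only [hrot]
    rw [integral_const, smul_eq_mul, hμ₁, measureReal_restrict_apply_univ, Real.volume_real_Ioc,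
      sub_zero, max_eq_left Real.two_pi_pos.le]
  have hR : ∫ z, (∫ θ, G (Complex.exp (θ * Complex.I) * z) ∂μ₁) ∂hyp =
      ∫ z, (2 * Real.pi * (f 0).re) * k z ∂hyp := by
    refine integral_congr_ae ?_
    filter_upwards [hae] with z hz
    rw [hD] at hz
    rcases le_or_gt ‖z‖ ρ with h | h
    · have h1 : ∀ θ : ℝ, G (Complex.exp (θ * Complex.I) * z) =
          k z * (f (Complex.exp (θ * Complex.I) * z)).re := by
        intro θ
        rw [hG]
        simp only
        rw [hrad (Complex.exp (θ * Complex.I) * z) (by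
          rw [mem_ball_zero_iff, hnorm]
          exact mem_ball_zero_iff.mp hz) z hz (hnorm θ z)]
      simp only [h1]
      rw [integral_const_mul, hμ₁, ← intervalIntegral.integral_of_le Real.two_pi_pos.le,
        RAD_mean V f ρ hV hf hVρ z h]
      ring
    · have h1 : ∀ θ : ℝ, G (Complex.exp (θ * Complex.I) * z) = 0 := by
        intro θ
        apply hG0
        · rw [mem_ball_zero_iff, hnorm]
          exact mem_ball_zero_iff.mp hz
        · rw [hnorm]
          exact h
      simp only [h1]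
      rw [integral_zero, hk0 z hz h, mul_zero]
  rw [hL, hR, integral_const_mul] at hswap
  have h2pi := Real.two_pi_pos
  have hfinal : ∫ z, G z ∂hyp = (f 0).re * ∫ z, k z ∂hyp := by
    have h1 : 2 * Real.pi * ∫ z, G z ∂hyp = 2 * Real.pi * ((f 0).re * ∫ z, k z ∂hyp) := by
      rw [hswap]
      ring
    exact mul_left_cancel₀ h2pi.ne' h1
  rw [hG] at hfinal
  rw [hfinal]
  ring

end Pool.Agent.SGG
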