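import Pool.Agent.helper24.SG.SpecD

/-!
# Project sg: (MP_2b8aea_gt), module D07: the number of arcs which meet a set of diameter `d`
-/

set_option autoImplicit false

open MeasureTheory Set Metric Filter Topology
open scoped ENNReal NNReal ComplexConjugate

namespace Pool.Agent.SG

theorem D07_dist (x x₀ : ℝ) :
    ‖Complex.exp (2 * Real.pi * x * Complex.I) - Complex.exp (2 * Real.pi * x₀ * Complex.I)‖ =
      2 * |Real.sin (Real.pi * (x - x₀))| := by
  have h1 : Complex.exp (2 * Real.pi * x * Complex.I) - Complex.exp (2 * Real.pi * x₀ * Complex.I) =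
      Complex.exp ((((2 * Real.pi * x₀ : ℝ)) : ℂ) * Complex.I) *
        (Complex.exp (Complex.I * ((2 * Real.pi * (x - x₀) : ℝ) : ℂ)) - 1) := by
    rw [mul_sub, mul_one, ← Complex.exp_add]
    congr 2
    · push_cast
      ring
    · push_cast
      ring
  rw [h1, norm_mul, Complex.norm_exp_ofReal_mul_I, one_mul, Complex.norm_exp_I_mul_ofReal_sub_one]
  rw [norm_mul]
  have h2 : 2 * Real.pi * (x - x₀) / 2 = Real.pi * (x - x₀) := by ring
  rw [h2, Real.norm_eq_abs, Real.norm_eq_abs]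
  norm_num

theorem D07_near (x x₀ d : ℝ) (hx : 0 ≤ x) (hx1 : x < 1) (hx₀ : 0 ≤ x₀) (hx₀1 : x₀ < 1)
    (h : 2 * |Real.sin (Real.pi * (x - x₀))| ≤ d) :
    ∃ s ∈ ({-1, 0, 1} : Finset ℤ), |x - x₀ - s| ≤ d / 4 := by
  have key : ∀ s : ℤ, |x - x₀ - s| ≤ 1 / 2 → |x - x₀ - s| ≤ d / 4 := by
    intro s hs
    have h1 : |Real.sin (Real.pi * (x - x₀))| = |Real.sin (Real.pi * (x - x₀ - s))| := by
      have h2 : Real.pi * (x - x₀) = Real.pi * (x - x₀ - s) + s * Real.pi := by ring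
      rw [h2, Real.sin_add_int_mul_pi, abs_mul, abs_zpow, abs_neg, abs_one, one_zpow, one_mul]
    have hpi := Real.pi_pos
    have h3 : |Real.pi * (x - x₀ - s)| ≤ Real.pi / 2 := by
      rw [abs_mul, abs_of_pos hpi]
      nlinarith
    have h4 := Real.mul_abs_le_abs_sin h3
    rw [h1] at h
    rw [abs_mul, abs_of_pos hpi] at h4
    have h5 : 2 / Real.pi * (Real.pi * |x - x₀ - s|) = 2 * |x - x₀ - s| := by
      field_simp
    rw [h5] at h4
    linarith
  rcases le_or_gt (x - x₀) (-(1 / 2)) with h1 | h1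
  · refine ⟨-1, by simp, key (-1) ?_⟩
    rw [abs_le]
    push_cast
    constructor <;> linarith
  · rcases le_or_gt (x - x₀) (1 / 2) with h2 | h2
    · refine ⟨0, by simp, key 0 ?_⟩
      rw [abs_le]
      push_cast
      constructor <;> linarith
    · refine ⟨1, by simp, key 1 ?_⟩
      rw [abs_le]
      push_cast
      constructor <;> linarith

theorem D07_count (S : Finset ℕ) (a b : ℝ) (hab : a ≤ b) (h : ∀ k ∈ S, a < (k : ℝ) ∧ (k : ℝ) ≤ b) :
    (S.card : ℝ) ≤ b - a + 1 := by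
  have h1 : S.card ≤ (Finset.Ioc ⌊a⌋ ⌊b⌋).card := by
    refine Finset.card_le_card_of_injOn (fun k : ℕ => (k : ℤ)) ?_ ?_
    · intro k hk
      have h2 := h k hk
      rw [Finset.mem_coe, Finset.mem_Ioc]
      constructor
      · rw [Int.floor_lt]
        exact_mod_cast h2.1
      · rw [Int.le_floor]
        exact_mod_cast h2.2
    · intro k _ k' _ hkk
      simp only at hkk
      exact_mod_cast hkk
  rw [Int.card_Ioc] at h1
  have h3 : ((⌊b⌋ - ⌊a⌋).toNat : ℤ) = ⌊b⌋ - ⌊a⌋ := by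
    apply Int.toNat_of_nonneg
    have := Int.floor_le_floor hab
    linarith
  have h4 : ((⌊b⌋ - ⌊a⌋).toNat : ℝ) = (⌊b⌋ : ℝ) - ⌊a⌋ := by exact_mod_cast h3
  have h5 : (S.card : ℝ) ≤ ((⌊b⌋ - ⌊a⌋).toNat : ℝ) := by exact_mod_cast h1
  have h6 := Int.floor_le b
  have h7 := Int.lt_floor_add_one a
  linarith

theorem D07 : D07_stmt := by
  classical
  intro q n E d hq hE hd hdiam
  obtain ⟨Q, hQ⟩ : ∃ Q : ℕ, Q = q ^ n := ⟨_, rfl⟩
  have hQ1 : 1 ≤ Q := by rw [hQ]; exact Nat.one_le_pow _ _ hq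
  have hQr : (1 : ℝ) ≤ Q := by exact_mod_cast hQ1
  have hQ0 : (0 : ℝ) < Q := by linarith
  have hQq : (q : ℝ) ^ n = Q := by rw [hQ]; push_cast; rfl
  rw [hQq]
  rcases E.eq_empty_or_nonempty with hemp | ⟨ξ₀, hξ₀⟩
  · have : meet q n E = ∅ := by
      unfold meet
      rw [Finset.filter_eq_empty_iff]
      intro k _ hk
      rw [hemp, inter_empty] at hk
      exact Set.not_nonempty_empty hk
    rw [this, Finset.card_empty]
    push_cast
    positivity
  -- the base point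
  have hbase : ∃ x₀ : ℝ, 0 ≤ x₀ ∧ x₀ < 1 ∧ ξ₀ = Complex.exp (2 * Real.pi * x₀ * Complex.I) := by
    have h1 : ‖ξ₀‖ = 1 := by
      have := hE hξ₀
      rw [circ, mem_sphere, dist_zero_right] at this
      exact this
    obtain ⟨θ, hθ⟩ : ∃ θ : ℝ, ξ₀ = Complex.exp (θ * Complex.I) := by
      refine ⟨Complex.arg ξ₀, ?_⟩
      have := Complex.norm_mul_exp_arg_mul_I ξ₀
      rw [h1, Complex.ofReal_one, one_mul] at this
      exact this.symm
    refine ⟨Int.fract (θ / (2 * Real.pi)), Int.fract_nonneg _, Int.fract_lt_one _, ?_⟩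
    rw [hθ, Complex.exp_eq_exp_iff_exists_int]
    refine ⟨⌊θ / (2 * Real.pi)⌋, ?_⟩
    have h2 : (Int.fract (θ / (2 * Real.pi)) : ℝ) = θ / (2 * Real.pi) - ⌊θ / (2 * Real.pi)⌋ := rfl
    rw [h2]
    push_cast
    have hpi : (Real.pi : ℂ) ≠ 0 := by exact_mod_cast Real.pi_ne_zero
    field_simp
    ring
  obtain ⟨x₀, hx₀, hx₀1, hξx⟩ := hbase
  -- the cover
  have hcov : meet q n E ⊆ ({-1, 0, 1} : Finset ℤ).biUnion fun s =>
      (Finset.range (Q + 1)).filter fun k : ℕ => Q * (x₀ + s) - Q * d / 4 - 1 < (k : ℝ) ∧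
        (k : ℝ) ≤ Q * (x₀ + s) + Q * d / 4 := by
    intro k hk
    unfold meet at hk
    rw [Finset.mem_filter, Finset.mem_range, ← hQ] at hk
    obtain ⟨hk1, ξ, hξ, hξE⟩ := hk
    unfold arcq at hξ
    rw [hQq] at hξ
    obtain ⟨x, ⟨hxl, hxr⟩, rfl⟩ := hξ
    have hkr : (k : ℝ) + 1 ≤ Q := by exact_mod_cast hk1
    have hx0 : 0 ≤ x := le_trans (by positivity) hxl
    have hx1 : x < 1 := by
      refine lt_of_lt_of_le hxr ?_
      rw [div_le_one hQ0]
      exact hkr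
    have h1 := hdiam _ hξE _ hξ₀
    rw [hξx] at h1
    simp only at h1
    rw [D07_dist] at h1
    obtain ⟨s, hs, hs2⟩ := D07_near x x₀ d hx0 hx1 hx₀ hx₀1 h1
    rw [Finset.mem_biUnion]
    refine ⟨s, hs, ?_⟩
    rw [Finset.mem_filter, Finset.mem_range]
    refine ⟨by omega, ?_, ?_⟩
    · rw [div_le_iff₀ hQ0] at hxl
      rw [lt_div_iff₀ hQ0] at hxr
      rw [abs_le] at hs2
      nlinarith [mul_le_mul_of_nonneg_left hs2.1 hQ0.le]
    · rw [div_le_iff₀ hQ0] at hxl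
      rw [abs_le] at hs2
      nlinarith [mul_le_mul_of_nonneg_left hs2.2 hQ0.le]
  have h2 : (meet q n E).card ≤ ∑ s ∈ ({-1, 0, 1} : Finset ℤ),
      ((Finset.range (Q + 1)).filter fun k : ℕ => Q * (x₀ + s) - Q * d / 4 - 1 < (k : ℝ) ∧
        (k : ℝ) ≤ Q * (x₀ + s) + Q * d / 4).card :=
    le_trans (Finset.card_le_card hcov) Finset.card_biUnion_le
  have h3 : ∀ s : ℤ, ((((Finset.range (Q + 1)).filter fun k : ℕ => Q * (x₀ + s) - Q * d / 4 - 1 < (k : ℝ) ∧
        (k : ℝ) ≤ Q * (x₀ + s) + Q * d / 4).card : ℕ) : ℝ) ≤ Q * d / 2 + 2 := by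
    intro s
    have h4 := D07_count ((Finset.range (Q + 1)).filter fun k : ℕ =>
      Q * (x₀ + s) - Q * d / 4 - 1 < (k : ℝ) ∧ (k : ℝ) ≤ Q * (x₀ + s) + Q * d / 4)
      (Q * (x₀ + s) - Q * d / 4 - 1) (Q * (x₀ + s) + Q * d / 4) (by
        have : 0 ≤ Q * d := by positivity
        linarith) (fun k hk => (Finset.mem_filter.mp hk).2)
    linarith
  have h5 : ((meet q n E).card : ℝ) ≤ ∑ s ∈ ({-1, 0, 1} : Finset ℤ), (Q * d / 2 + 2) := by
    have h6 : ((meet q n E).card : ℝ) ≤ ((∑ s ∈ ({-1, 0, 1} : Finset ℤ),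
      ((Finset.range (Q + 1)).filter fun k : ℕ => Q * (x₀ + s) - Q * d / 4 - 1 < (k : ℝ) ∧
        (k : ℝ) ≤ Q * (x₀ + s) + Q * d / 4).card : ℕ) : ℝ) := by exact_mod_cast h2
    refine le_trans h6 ?_
    push_cast
    exact Finset.sum_le_sum fun s _ => h3 s
  rw [Finset.sum_const] at h5
  have h7 : ({-1, 0, 1} : Finset ℤ).card = 3 := by decide
  rw [h7] at h5
  rw [nsmul_eq_mul] at h5
  push_cast at h5
  linarith

end Pool.Agent.SG
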