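import Pool.Agent.helper56.SG.SpecG

/-!
# Project sg: (MP_2b8aea_gt), module MOB: Moebius maps of the disc
-/

set_option autoImplicit false

open MeasureTheory Set Metric Filter Topology
open scoped ENNReal NNReal ComplexConjugate
open Pool.Agent.SG

noncomputable section

namespace Pool.Agent.SGG

theorem MOB_isoC {a b : ℂ} (h : IsoM a b) : a * conj a - b * conj b = 1 := by
  have h1 : ((‖a‖ ^ 2 - ‖b‖ ^ 2 : ℝ) : ℂ) = 1 := by rw [h]; simp
  rw [Complex.mul_conj, Complex.mul_conj, Complex.normSq_eq_norm_sq, Complex.normSq_eq_norm_sq]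
  push_cast at h1
  push_cast
  exact h1

theorem MOB_ne {a b : ℂ} (h : IsoM a b) (z : ℂ) (hz : ‖z‖ ≤ 1) : conj b * z + conj a ≠ 0 := by
  intro h0
  have h1 : ‖conj a‖ = ‖conj b * z‖ := by
    have : conj a = -(conj b * z) := by linear_combination h0
    rw [this, norm_neg]
  rw [norm_mul, Complex.norm_conj, Complex.norm_conj] at h1
  have h2 : ‖b‖ * ‖z‖ ≤ ‖b‖ := mul_le_of_le_one_right (norm_nonneg _) hz
  have h3 : ‖a‖ ≤ ‖b‖ := by rw [h1]; exact h2
  have h4 : ‖a‖ ^ 2 ≤ ‖b‖ ^ 2 := pow_le_pow_left₀ (norm_nonneg _) h3 2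
  unfold IsoM at h
  linarith

theorem MOB_pol {a b : ℂ} (h : IsoM a b) (x y : ℂ) (hx : ‖x‖ ≤ 1) (hy : ‖y‖ ≤ 1) :
    1 - conj (mob a b x) * mob a b y =
      (1 - conj x * y) / (conj (conj b * x + conj a) * (conj b * y + conj a)) := by
  have h1 := MOB_ne h x hx
  have h2 := MOB_ne h y hy
  have h3 : conj (conj b * x + conj a) ≠ 0 := by
    rw [Ne, map_eq_zero]
    exact h1
  have h4 := MOB_isoC h
  unfold mob
  rw [map_div₀, eq_div_iff (mul_ne_zero h3 h2)]
  have h5 : conj (conj b * x + conj a) = b * conj x + a := by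
    rw [map_add, map_mul, Complex.conj_conj, Complex.conj_conj]
  have h6 : conj (a * x + b) = conj a * conj x + conj b := by
    rw [map_add, map_mul]
  rw [h5] at h3
  have gen : ∀ n₁ c₁ n₂ c₂ : ℂ, c₁ ≠ 0 → c₂ ≠ 0 →
      (1 - n₁ / c₁ * (n₂ / c₂)) * (c₁ * c₂) = c₁ * c₂ - n₁ * n₂ := by
    intro n₁ c₁ n₂ c₂ hc₁ hc₂
    field_simp
  rw [h5, h6, gen _ _ _ _ h3 h2]
  linear_combination (1 - conj x * y) * h4

theorem MOB_norm {a b : ℂ} (h : IsoM a b) (z : ℂ) (hz : ‖z‖ ≤ 1) :
    1 - ‖mob a b z‖ ^ 2 = (1 - ‖z‖ ^ 2) / ‖conj b * z + conj a‖ ^ 2 := by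
  have h1 := MOB_pol h z z hz hz
  have h2 : ∀ w : ℂ, conj w * w = ((‖w‖ ^ 2 : ℝ) : ℂ) := by
    intro w
    rw [mul_comm, Complex.mul_conj, Complex.normSq_eq_norm_sq]
  rw [h2, h2, h2] at h1
  exact_mod_cast h1

theorem MOB_ball {a b : ℂ} (h : IsoM a b) (z : ℂ) (hz : z ∈ ball (0 : ℂ) 1) :
    mob a b z ∈ ball (0 : ℂ) 1 := by
  rw [mem_ball_zero_iff] at hz ⊢
  have h1 := MOB_norm h z hz.le
  have h2 := MOB_ne h z hz.le
  have h3 : 0 < (1 - ‖z‖ ^ 2) / ‖conj b * z + conj a‖ ^ 2 := by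
    have : 0 < ‖conj b * z + conj a‖ := norm_pos_iff.mpr h2
    have h4 : 0 < 1 - ‖z‖ ^ 2 := by
      have := norm_nonneg z
      nlinarith
    positivity
  rw [← h1] at h3
  have h5 := norm_nonneg (mob a b z)
  nlinarith

theorem MOB_inv {a b : ℂ} (h : IsoM a b) (z : ℂ) (hz : ‖z‖ ≤ 1) :
    mob (conj a) (-b) (mob a b z) = z := by
  have h1 := MOB_ne h z hz
  have h4 := MOB_isoC h
  unfold mob
  rw [Complex.conj_conj, map_neg]
  have gen : ∀ n c : ℂ, c ≠ 0 → (conj a * (n / c) + -b) * c = conj a * n - b * c := by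
    intro n c hc
    field_simp
    ring
  have gen2 : ∀ n c : ℂ, c ≠ 0 → (-conj b * (n / c) + a) * c = -conj b * n + a * c := by
    intro n c hc
    field_simp
  have e1 := gen (a * z + b) (conj b * z + conj a) h1
  have e2 := gen2 (a * z + b) (conj b * z + conj a) h1
  have e3 : conj a * (a * z + b) - b * (conj b * z + conj a) = z := by
    linear_combination z * h4
  have e4 : -conj b * (a * z + b) + a * (conj b * z + conj a) = 1 := by
    linear_combination h4
  rw [e3] at e1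
  rw [e4] at e2
  rw [← mul_div_mul_right _ _ h1, e1, e2, div_one]

theorem MOB_iso' {a b : ℂ} (h : IsoM a b) : IsoM (conj a) (-b) := by
  unfold IsoM at h ⊢
  rw [Complex.norm_conj, norm_neg]
  exact h

theorem MOB : MOB_stmt := by
  intro a b h
  have h' := MOB_iso' h
  refine ⟨h', fun z hz => MOB_ne h z hz, fun z hz => MOB_ball h z hz, ?_, ?_, ?_, ?_, ?_, ?_⟩
  · intro z hz
    exact MOB_inv h z (mem_ball_zero_iff.mp hz).le
  · intro z hz
    have := MOB_inv h' z (mem_ball_zero_iff.mp hz).le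
    rw [Complex.conj_conj, neg_neg] at this
    exact this
  · intro z hz
    have h1 := MOB_ne h z (mem_ball_zero_iff.mp hz).le
    have h4 := MOB_isoC h
    have d1 : HasDerivAt (fun z : ℂ => a * z + b) a z := by
      simpa using ((hasDerivAt_id z).const_mul a).add_const b
    have d2 : HasDerivAt (fun z : ℂ => conj b * z + conj a) (conj b) z := by
      simpa using ((hasDerivAt_id z).const_mul (conj b)).add_const (conj a)
    have d3 := d1.div d2 h1
    have d4 : (a * (conj b * z + conj a) - (a * z + b) * conj b) / (conj b * z + conj a) ^ 2 =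
        1 / (conj b * z + conj a) ^ 2 := by
      congr 1
      linear_combination h4
    rw [d4] at d3
    exact d3
  · intro z hz
    exact MOB_norm h z (mem_ball_zero_iff.mp hz).le
  · intro x hx y hy
    have hx1 := (mem_ball_zero_iff.mp hx).le
    have hy1 := (mem_ball_zero_iff.mp hy).le
    have h1 := MOB_norm h x hx1
    have h2 := MOB_norm h y hy1
    have h3 := MOB_pol h x y hx1 hy1
    have n1 : 0 < ‖conj b * x + conj a‖ := norm_pos_iff.mpr (MOB_ne h x hx1)
    have n2 : 0 < ‖conj b * y + conj a‖ := norm_pos_iff.mpr (MOB_ne h y hy1)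
    unfold pp
    rw [h1, h2, h3, norm_div, norm_mul, Complex.norm_conj]
    by_cases h0 : ‖1 - conj x * y‖ = 0
    · rw [h0]
      simp
    · field_simp
  · unfold mob
    fun_prop

end Pool.Agent.SGG
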