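import Pool.Agent.helper3.SG.SpecS
import Pool.Agent.helper95.SG.MOB

/-!
# Project sg: (MP_2b8aea_gt), module S33: saturation
-/

set_option autoImplicit false

open MeasureTheory Set Metric Filter Topology
open scoped ENNReal NNReal ComplexConjugate

namespace Pool.Agent.SG

theorem S33_countable {Γ : Type} [Group Γ] (W : Walk Γ) : Countable Γ := by
  have h : Function.Surjective (fun l : List {s : Γ // s ∈ W.S} => (l.map Subtype.val).prod) := by
    intro g
    have hg : g ∈ Submonoid.closure (W.S : Set Γ) := by rw [W.gen]; exact Submonoid.mem_top g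
    obtain ⟨l, hl, hprod⟩ := Submonoid.exists_list_of_mem_closure hg
    refine ⟨l.attach.map fun x => ⟨x.1, hl x.1 x.2⟩, ?_⟩
    simp only [List.map_map]
    rw [← hprod]
    congr 1
    conv_rhs => rw [← List.attach_map_subtype_val l]
    rfl
  exact h.countable

/-- Facts on the action on the closed disc. -/
theorem S33_act {Γ : Type} [Group Γ] (A : DiscRep Γ) :
    (∀ γ z, ‖z‖ ≤ 1 → ‖A.act γ z‖ ≤ 1) ∧ (∀ γ z, ‖z‖ = 1 → ‖A.act γ z‖ = 1) ∧
    (∀ γ δ z, ‖z‖ ≤ 1 → A.act (γ * δ) z = A.act γ (A.act δ z)) ∧ (∀ z, ‖z‖ ≤ 1 → A.act 1 z = z) ∧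
    (∀ γ z, ‖z‖ ≤ 1 → A.act γ⁻¹ (A.act γ z) = z) := by
  have hiso : ∀ γ, Pool.Agent.SGG.IsoM (A.a γ) (A.b γ) := fun γ => A.norm_eq γ
  have hle : ∀ γ z, ‖z‖ ≤ 1 → ‖A.act γ z‖ ≤ 1 := by
    intro γ z hz
    have h1 := Pool.Agent.SGG.MOB_norm (hiso γ) z hz
    have h2 : 0 ≤ (1 - ‖z‖ ^ 2) / ‖conj (A.b γ) * z + conj (A.a γ)‖ ^ 2 := by
      apply div_nonneg
      · have := norm_nonneg z
        nlinarith
      · positivity
    rw [← h1] at h2
    have h3 := norm_nonneg (mob (A.a γ) (A.b γ) z)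
    have h4 : A.act γ z = mob (A.a γ) (A.b γ) z := rfl
    rw [h4]
    nlinarith
  have heq : ∀ γ z, ‖z‖ = 1 → ‖A.act γ z‖ = 1 := by
    intro γ z hz
    have h1 := Pool.Agent.SGG.MOB_norm (hiso γ) z hz.le
    rw [hz] at h1
    have h3 := norm_nonneg (mob (A.a γ) (A.b γ) z)
    have h4 : A.act γ z = mob (A.a γ) (A.b γ) z := rfl
    rw [h4]
    have h5 : ‖mob (A.a γ) (A.b γ) z‖ ^ 2 = 1 := by
      have h6 : (1 - (1 : ℝ) ^ 2) / ‖conj (A.b γ) * z + conj (A.a γ)‖ ^ 2 = 0 := by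
        norm_num
      rw [h6] at h1
      linarith
    nlinarith
  have hmul : ∀ γ δ z, ‖z‖ ≤ 1 → A.act (γ * δ) z = A.act γ (A.act δ z) := by
    intro γ δ z hz
    exact A.map_mul γ δ z hz
  have hone : ∀ z, ‖z‖ ≤ 1 → A.act 1 z = z := by
    intro z hz
    have h1 := hmul 1 1 z hz
    rw [mul_one] at h1
    have h2 := Pool.Agent.SGG.MOB_inv (hiso 1) z hz
    have h3 := Pool.Agent.SGG.MOB_inv (hiso 1) (A.act 1 z) (hle 1 z hz)
    have h4 : mob (A.a 1) (A.b 1) (A.act 1 z) = mob (A.a 1) (A.b 1) z := h1.symm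
    rw [h4, h2] at h3
    exact h3.symm
  refine ⟨hle, heq, hmul, hone, ?_⟩
  intro γ z hz
  rw [← hmul γ⁻¹ γ z hz, inv_mul_cancel]
  exact hone z hz

/-- `act γ` is Lipschitz on the circle. -/
theorem S33_lip {Γ : Type} [Group Γ] (A : DiscRep Γ) (γ : Γ) :
    ∃ K : ℝ≥0, LipschitzOnWith K (A.act γ) circ := by
  obtain ⟨a, ha⟩ : ∃ a, a = A.a γ := ⟨_, rfl⟩
  obtain ⟨b, hb⟩ : ∃ b, b = A.b γ := ⟨_, rfl⟩
  have hiso : ‖a‖ ^ 2 - ‖b‖ ^ 2 = 1 := by rw [ha, hb]; exact A.norm_eq γ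
  have hiso' : Pool.Agent.SGG.IsoM a b := hiso
  have hab : ‖b‖ < ‖a‖ := by
    by_contra h
    rw [not_lt] at h
    have := pow_le_pow_left₀ (norm_nonneg a) h 2
    linarith
  have hpos : 0 < ‖a‖ - ‖b‖ := by linarith
  have hq : ∀ z ∈ circ, ‖a‖ - ‖b‖ ≤ ‖conj b * z + conj a‖ := by
    intro z hz
    rw [circ, mem_sphere, dist_zero_right] at hz
    have h1 : ‖conj a‖ ≤ ‖conj b * z + conj a‖ + ‖conj b * z‖ := by
      have := norm_sub_le (conj b * z + conj a) (conj b * z)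
      rw [add_sub_cancel_left] at this
      exact this
    rw [norm_mul, Complex.norm_conj, Complex.norm_conj, hz, mul_one] at h1
    linarith
  refine ⟨(1 / (‖a‖ - ‖b‖) ^ 2).toNNReal, ?_⟩
  apply LipschitzOnWith.of_dist_le_mul
  intro z hz w hw
  have hz1 : ‖z‖ ≤ 1 := by
    rw [circ, mem_sphere, dist_zero_right] at hz
    exact hz.le
  have hw1 : ‖w‖ ≤ 1 := by
    rw [circ, mem_sphere, dist_zero_right] at hw
    exact hw.le
  have n1 := Pool.Agent.SGG.MOB_ne hiso' z hz1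
  have n2 := Pool.Agent.SGG.MOB_ne hiso' w hw1
  have h4 := Pool.Agent.SGG.MOB_isoC hiso'
  have h5 : A.act γ z - A.act γ w =
      (z - w) / ((conj b * z + conj a) * (conj b * w + conj a)) := by
    have e1 : A.act γ z = (a * z + b) / (conj b * z + conj a) := by
      rw [ha, hb]; rfl
    have e2 : A.act γ w = (a * w + b) / (conj b * w + conj a) := by
      rw [ha, hb]; rfl
    rw [e1, e2, div_sub_div _ _ n1 n2]
    congr 1
    linear_combination (z - w) * h4
  rw [dist_eq_norm, dist_eq_norm, h5, norm_div, norm_mul, Real.coe_toNNReal _ (by positivity)]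
  have h6 := hq z hz
  have h7 := hq w hw
  have h8 : (‖a‖ - ‖b‖) ^ 2 ≤ ‖conj b * z + conj a‖ * ‖conj b * w + conj a‖ := by
    rw [sq]
    exact mul_le_mul h6 h7 hpos.le (norm_nonneg _)
  rw [div_mul_eq_mul_div, one_mul]
  exact div_le_div_of_nonneg_left (norm_nonneg _) (by positivity) h8

theorem S33_meas {Γ : Type} [Group Γ] (A : DiscRep Γ) (γ : Γ) : Measurable (A.act γ) := by
  unfold DiscRep.act mob
  fun_prop

theorem S33 : S33_stmt := by
  intro Γ _ A W ν hst huniq B hB hνB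
  obtain ⟨hle, hcirc, hmul, hone, hinv⟩ := S33_act A
  have hcount : Countable Γ := S33_countable W
  have hprob := hst.prob
  have hsupp := hst.supp
  have hcm : MeasurableSet circ := by unfold circ; exact isClosed_sphere.measurableSet
  have hc1 : ∀ z ∈ circ, ‖z‖ = 1 := by
    intro z hz
    rw [circ, mem_sphere, dist_zero_right] at hz
    exact hz
  have hc2 : ∀ z : ℂ, ‖z‖ = 1 → z ∈ circ := by
    intro z hz
    rw [circ, mem_sphere, dist_zero_right]
    exact hz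
  have hae : ∀ᵐ z ∂ν, z ∈ circ := by
    rw [ae_iff]
    exact hsupp
  obtain ⟨B', hB'⟩ : ∃ B' : Set ℂ, B' = ⋃ γ : Γ, (circ ∩ A.act γ ⁻¹' B) := ⟨_, rfl⟩
  have hmemB' : ∀ z, z ∈ B' ↔ ∃ γ, z ∈ circ ∧ A.act γ z ∈ B := by
    intro z
    rw [hB', mem_iUnion]
    rfl
  have hB'm : MeasurableSet B' := by
    rw [hB']
    exact MeasurableSet.iUnion fun γ => hcm.inter (S33_meas A γ hB)
  have hBB' : B ∩ circ ⊆ B' := by
    rintro z ⟨hz1, hz2⟩
    rw [hmemB']
    refine ⟨1, hz2, ?_⟩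
    rw [hone z (hc1 z hz2).le]
    exact hz1
  have hinvB' : ∀ s, ∀ z ∈ circ, A.act s z ∈ B' ↔ z ∈ B' := by
    intro s z hz
    have hz1 := hc1 z hz
    rw [hmemB', hmemB']
    constructor
    · rintro ⟨γ, _, h2⟩
      refine ⟨γ * s, hz, ?_⟩
      rw [hmul γ s z hz1.le]
      exact h2
    · rintro ⟨γ, _, h2⟩
      refine ⟨γ * s⁻¹, hc2 _ (hcirc s z hz1), ?_⟩
      rw [hmul γ s⁻¹ _ (hcirc s z hz1).le, hinv s z hz1.le]
      exact h2
  have hνB' : 0 < ν B' := by
    have h1 : ν B = ν (B ∩ circ) := by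
      apply measure_congr
      filter_upwards [hae] with z hz
      apply propext
      exact ⟨fun h => ⟨h, hz⟩, fun h => h.1⟩
    rw [h1] at hνB
    exact lt_of_lt_of_le hνB (measure_mono hBB')
  have hdim : dimH B' ≤ dimH B := by
    rw [hB', dimH_iUnion]
    refine iSup_le fun γ => ?_
    have h1 : circ ∩ A.act γ ⁻¹' B ⊆ A.act γ⁻¹ '' (B ∩ circ) := by
      rintro z ⟨hz1, hz2⟩
      have hz := hc1 z hz1
      exact ⟨A.act γ z, ⟨hz2, hc2 _ (hcirc γ z hz)⟩, hinv γ z hz.le⟩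
    refine le_trans (dimH_mono h1) ?_
    obtain ⟨K, hK⟩ := S33_lip A γ⁻¹
    refine le_trans ((hK.mono inter_subset_right).dimH_image_le) ?_
    exact dimH_mono inter_subset_left
  refine ⟨B', hB'm, ?_, hdim⟩
  by_contra hne
  have hc0 : ν B'ᶜ ≠ 0 := by
    intro h0
    apply hne
    have := prob_add_prob_compl (μ := ν) hB'm
    rw [h0, add_zero] at this
    exact this
  have hctop : ν B'ᶜ ≠ ⊤ := measure_ne_top _ _
  obtain ⟨c, hc⟩ : ∃ c, c = ν B'ᶜ := ⟨_, rfl⟩
  rw [← hc] at hc0 hctop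
  obtain ⟨ν', hν'⟩ : ∃ ν' : Measure ℂ, ν' = c⁻¹ • ν.restrict B'ᶜ := ⟨_, rfl⟩
  have hν'app : ∀ E, MeasurableSet E → ν' E = c⁻¹ * ν (E ∩ B'ᶜ) := by
    intro E hE
    rw [hν', Measure.smul_apply, smul_eq_mul, Measure.restrict_apply hE]
  have hstν : ∀ E, MeasurableSet E → ν E = ∑ s ∈ W.S, W.μ s * ν (A.act s ⁻¹' E) := by
    intro E hE
    conv_lhs => rw [hst.stat]
    rw [Measure.coe_finsetSum, Finset.sum_apply]
    refine Finset.sum_congr rfl fun s _ => ?_
    rw [Measure.smul_apply, smul_eq_mul, Measure.map_apply (S33_meas A s) hE]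
  have hst' : Stat A W ν' := by
    refine ⟨?_, ?_, ?_⟩
    · constructor
      rw [hν'app _ MeasurableSet.univ, univ_inter, ← hc]
      exact ENNReal.inv_mul_cancel hc0 hctop
    · rw [hν'app _ hcm.compl]
      have : ν (circᶜ ∩ B'ᶜ) = 0 := measure_mono_null inter_subset_left hsupp
      rw [this, mul_zero]
    · refine Measure.ext fun E hE => ?_
      rw [hν'app E hE, hstν _ (hE.inter hB'm.compl), Measure.coe_finsetSum, Finset.sum_apply,
        Finset.mul_sum]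
      refine Finset.sum_congr rfl fun s _ => ?_
      rw [Measure.smul_apply, smul_eq_mul, Measure.map_apply (S33_meas A s) hE,
        hν'app _ (S33_meas A s hE)]
      have h1 : ν (A.act s ⁻¹' (E ∩ B'ᶜ)) = ν (A.act s ⁻¹' E ∩ B'ᶜ) := by
        apply measure_congr
        filter_upwards [hae] with z hz
        apply propext
        have h2 := hinvB' s z hz
        constructor
        · rintro ⟨h3, h4⟩
          exact ⟨h3, fun h5 => h4 (h2.mpr h5)⟩
        · rintro ⟨h3, h4⟩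
          exact ⟨h3, fun h5 => h4 (h2.mp h5)⟩
      rw [h1]
      ring
  have h1 := huniq ν' hst'
  have h2 : ν' B' = 0 := by
    rw [hν'app _ hB'm, inter_compl_self, measure_empty, mul_zero]
  rw [h1] at h2
  exact hνB'.ne' h2

end Pool.Agent.SG
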