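import Pool.Agent.helper24.SG.SpecD

/-!
# Project sg: (MP_2b8aea_gt), module D14: uniform smallness of balls
-/

set_option autoImplicit false

open MeasureTheory Set Metric Filter Topology
open scoped ENNReal NNReal ComplexConjugate

namespace Pool.Agent.SG

theorem D14 : D14_stmt := by
  intro ν ε hν hε hatom
  by_contra hcon
  push Not at hcon
  have h1 : ∀ n : ℕ, ∃ ξ ∈ circ, ε < ν (closedBall ξ (1 / ((n : ℝ) + 1))) := by
    intro n
    refine hcon (1 / ((n : ℝ) + 1)) (by positivity) ?_
    rw [div_le_one (by positivity)]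
    have : (0 : ℝ) ≤ n := by positivity
    linarith
  choose x hx hxε using h1
  have hcomp : IsCompact circ := isCompact_sphere (0 : ℂ) 1
  obtain ⟨ξ, _, φ, hφ, hlim⟩ := hcomp.tendsto_subseq hx
  have h2 : ∀ r : ℝ, 0 < r → ε ≤ ν (closedBall ξ r) := by
    intro r hr
    have h3 : ∀ᶠ n in atTop, dist (x (φ n)) ξ < r / 2 := by
      have := (Metric.tendsto_atTop.mp hlim) (r / 2) (by linarith)
      obtain ⟨N, hN⟩ := this
      filter_upwards [Filter.eventually_ge_atTop N] with n hn
      exact hN n hn
    have h4 : ∀ᶠ n : ℕ in atTop, 1 / (((φ n : ℕ) : ℝ) + 1) < r / 2 := by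
      have h5 : Tendsto (fun n : ℕ => 1 / (((φ n : ℕ) : ℝ) + 1)) atTop (𝓝 0) :=
        tendsto_one_div_add_atTop_nhds_zero_nat.comp hφ.tendsto_atTop
      exact h5.eventually (Iio_mem_nhds (by linarith))
    obtain ⟨n, hn1, hn2⟩ := (h3.and h4).exists
    refine le_trans (hxε (φ n)).le (measure_mono ?_)
    intro y hy
    rw [mem_closedBall] at hy ⊢
    have := dist_triangle y (x (φ n)) ξ
    linarith
  have h6 : ({ξ} : Set ℂ) = ⋂ k : ℕ, closedBall ξ (1 / ((k : ℝ) + 1)) := by
    ext y
    rw [mem_singleton_iff, mem_iInter]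
    constructor
    · rintro rfl k
      exact mem_closedBall_self (by positivity)
    · intro h
      have h7 : dist y ξ ≤ 0 := by
        refine ge_of_tendsto' tendsto_one_div_add_atTop_nhds_zero_nat fun k => ?_
        exact mem_closedBall.mp (h k)
      exact dist_le_zero.mp h7
  have h8 : Tendsto (fun k : ℕ => ν (closedBall ξ (1 / ((k : ℝ) + 1)))) atTop
      (𝓝 (ν (⋂ k : ℕ, closedBall ξ (1 / ((k : ℝ) + 1))))) := by
    refine tendsto_measure_iInter_atTop ?_ ?_ ?_
    · intro k
      exact isClosed_closedBall.measurableSet.nullMeasurableSet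
    · intro j k hjk
      apply closedBall_subset_closedBall
      apply one_div_le_one_div_of_le (by positivity)
      have : (j : ℝ) ≤ k := by exact_mod_cast hjk
      linarith
    · exact ⟨0, measure_ne_top _ _⟩
  rw [← h6, hatom ξ] at h8
  have h9 : ε ≤ 0 := ge_of_tendsto' h8 fun k => h2 _ (by positivity)
  exact hε (le_antisymm h9 bot_le)

end Pool.Agent.SG
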