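import Pool.Agent.helper3.SG.SpecS

/-!
# Project sg: (MP_2b8aea_gt), module S30: dimension of a limsup set
-/

set_option autoImplicit false

open MeasureTheory Set Metric Filter Topology
open scoped ENNReal NNReal ComplexConjugate

namespace Pool.Agent.SG

theorem S30 : S30_stmt := by
  intro E κ C lam' t hκ hC hlam ht hlog hE
  choose F hFcard hFcov hFdiam using hE
  have hκ0 : 0 < κ := by linarith
  -- the ratio
  obtain ⟨q, hq⟩ : ∃ q : ℝ, q = κ * Real.exp (-(lam' * t)) := ⟨_, rfl⟩
  have hq0 : 0 < q := by rw [hq]; positivity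
  have hq1 : q < 1 := by
    rw [hq]
    have h1 : κ = Real.exp (Real.log κ) := (Real.exp_log hκ0).symm
    rw [h1, ← Real.exp_add]
    rw [← Real.exp_zero]
    apply Real.exp_lt_exp.mpr
    linarith
  obtain ⟨r, hr⟩ : ∃ r : ℕ → ℝ≥0∞, r = fun n : ℕ => ENNReal.ofReal (C * Real.exp (-(lam' * (n : ℝ)))) :=
    ⟨_, rfl⟩
  have hr0 : Tendsto r atTop (𝓝 0) := by
    rw [hr]
    have h1 : Tendsto (fun n : ℕ => C * Real.exp (-(lam' * n))) atTop (𝓝 0) := by
      have h2 : Tendsto (fun n : ℕ => Real.exp (-(lam' * n))) atTop (𝓝 0) := by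
        apply Real.tendsto_exp_neg_atTop_nhds_zero.comp
        exact tendsto_natCast_atTop_atTop.const_mul_atTop hlam
      simpa using h2.const_mul C
    have h3 := ENNReal.tendsto_ofReal h1
    rw [ENNReal.ofReal_zero] at h3
    exact h3
  have hdiam : ∀ n, ∀ I ∈ F n, ediam I ≤ r n := by
    intro n I hI
    apply ediam_le_iff.mpr
    intro x hx y hy
    rw [edist_dist, dist_eq_norm, hr]
    exact ENNReal.ofReal_le_ofReal (hFdiam n I hI x hx y hy)
  obtain ⟨d, hd⟩ : ∃ d : ℝ≥0, d = t.toNNReal := ⟨_, rfl⟩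
  have hdt : (d : ℝ) = t := by rw [hd]; exact Real.coe_toNNReal t ht.le
  have hgoal : ENNReal.ofReal t = (d : ℝ≥0∞) := by rw [hd]; rfl
  rw [hgoal]
  apply dimH_le_of_hausdorffMeasure_ne_top
  rw [hdt]
  -- the covers
  have hle := Measure.hausdorffMeasure_le_liminf_tsum (β := ℕ)
    (ι := fun N => Σ m : ℕ, {I : Set ℂ // I ∈ F (N + m)}) t (⋂ N, ⋃ n ≥ N, E n) (l := atTop) r hr0
    (fun N i => i.2.1) ?_ ?_
  · refine ne_of_lt (lt_of_le_of_lt hle ?_)
    have hbound : ∀ N : ℕ, ∑' i : (Σ m : ℕ, {I : Set ℂ // I ∈ F (N + m)}), ediam (i.2.1) ^ t ≤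
        ENNReal.ofReal (C * C ^ t * (1 - q)⁻¹) := by
      intro N
      rw [ENNReal.tsum_sigma']
      have h1 : ∀ m : ℕ, ∑' I : {I : Set ℂ // I ∈ F (N + m)}, ediam (I.1) ^ t ≤
          ENNReal.ofReal (C * C ^ t * q ^ m) := by
        intro m
        rw [tsum_fintype]
        have h2 : ∀ I ∈ (Finset.univ : Finset {I : Set ℂ // I ∈ F (N + m)}),
            ediam (I.1) ^ t ≤ (r (N + m)) ^ t := by
          intro I _
          exact ENNReal.rpow_le_rpow (hdiam _ I.1 I.2) ht.le
        refine le_trans (Finset.sum_le_card_nsmul _ _ _ h2) ?_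
        rw [Finset.card_univ, Fintype.card_coe, nsmul_eq_mul, hr]
        simp only
        rw [ENNReal.ofReal_rpow_of_nonneg (by positivity) ht.le]
        have h3 : (((F (N + m)).card : ℕ) : ℝ≥0∞) ≤ ENNReal.ofReal (C * κ ^ (N + m)) := by
          rw [← ENNReal.ofReal_natCast]
          exact ENNReal.ofReal_le_ofReal (hFcard _)
        refine le_trans (mul_le_mul_left h3 _) ?_
        rw [← ENNReal.ofReal_mul (by positivity)]
        apply ENNReal.ofReal_le_ofReal
        have h4 : (C * Real.exp (-(lam' * ((N + m : ℕ) : ℝ)))) ^ t =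
            C ^ t * Real.exp (-(lam' * t)) ^ (N + m) := by
          rw [Real.mul_rpow hC.le (Real.exp_pos _).le, ← Real.exp_mul, ← Real.exp_nat_mul]
          congr 2
          push_cast
          ring
        rw [h4]
        have h5 : C * κ ^ (N + m) * (C ^ t * Real.exp (-(lam' * t)) ^ (N + m)) =
            C * C ^ t * q ^ (N + m) := by
          rw [hq, mul_pow]
          ring
        rw [h5]
        refine mul_le_mul_of_nonneg_left ?_ (by positivity)
        exact pow_le_pow_of_le_one hq0.le hq1.le (by omega)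
      refine le_trans (ENNReal.tsum_le_tsum h1) ?_
      rw [← ENNReal.ofReal_tsum_of_nonneg]
      · rw [tsum_mul_left, tsum_geometric_of_lt_one hq0.le hq1]
      · intro m
        positivity
      · exact (summable_geometric_of_lt_one hq0.le hq1).mul_left _
    refine lt_of_le_of_lt ?_ (ENNReal.ofReal_lt_top (r := C * C ^ t * (1 - q)⁻¹))
    refine liminf_le_of_le (by isBoundedDefault) ?_
    intro b hb
    obtain ⟨N, hN⟩ := hb.exists
    exact le_trans hN (hbound N)
  · refine Filter.Eventually.of_forall fun N i => ?_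
    refine le_trans (hdiam _ i.2.1 i.2.2) ?_
    rw [hr]
    apply ENNReal.ofReal_le_ofReal
    refine mul_le_mul_of_nonneg_left ?_ hC.le
    apply Real.exp_le_exp.mpr
    push_cast
    have : (0 : ℝ) ≤ i.1 := by positivity
    nlinarith
  · refine Filter.Eventually.of_forall fun N => ?_
    intro x hx
    rw [mem_iInter] at hx
    have h1 := hx N
    rw [mem_iUnion₂] at h1
    obtain ⟨n, hn, hxn⟩ := h1
    have h2 := hFcov n hxn
    rw [mem_iUnion₂] at h2
    obtain ⟨I, hI, hxI⟩ := h2
    rw [mem_iUnion]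
    obtain ⟨m, rfl⟩ := Nat.exists_eq_add_of_le hn
    exact ⟨⟨m, ⟨I, hI⟩⟩, hxI⟩

end Pool.Agent.SG
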